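import Pool.Agent.Lib.MP_6bc78b_nt.MS.QZ.Iface

/-! Project MS, Part QZ, module NRB: norms without the mollifier. -/

set_option autoImplicit false

open Complex Filter Topology MeasureTheory ArithmeticFunction

namespace Pool.Agent.Lib.MP_6bc78b_nt.MS.QZ.H31

open Pool.Agent.Lib.MP_6bc78b_nt.MS Pool.Agent.Lib.MP_6bc78b_nt.MS.P1
open Pool.Agent.Lib.MP_6bc78b_nt.MS.QZ

/-- `f` is supported on the numbers composed of the primes in `S`. -/
def Sup (S : Finset ℕ) (f : ArithmeticFunction ℝ) : Prop := ∀ n, f n ≠ 0 → n.primeFactors ⊆ S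

theorem Sup.mul {S1 S2 : Finset ℕ} {f g : ArithmeticFunction ℝ} (hf : Sup S1 f)
    (hg : Sup S2 g) : Sup (S1 ∪ S2) (f * g) := by
  intro n hn
  rw [ArithmeticFunction.mul_apply] at hn
  obtain ⟨x, hx, hx2⟩ := Finset.exists_ne_zero_of_sum_ne_zero hn
  have hx3 := (Nat.mem_divisorsAntidiagonal.1 hx)
  have h1 : x.1 ≠ 0 := by
    rintro h
    apply hx3.2
    rw [← hx3.1, h, zero_mul]
  have h2 : x.2 ≠ 0 := by
    rintro h
    apply hx3.2
    rw [← hx3.1, h, mul_zero]
  rw [← hx3.1, Nat.primeFactors_mul h1 h2]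
  exact Finset.union_subset_union (hf _ (left_ne_zero_of_mul hx2))
    (hg _ (right_ne_zero_of_mul hx2))

theorem sup_one (S : Finset ℕ) : Sup S 1 := by
  intro n hn
  rw [ArithmeticFunction.one_apply] at hn
  have : n = 1 := by
    by_contra h
    simp [h] at hn
  subst this
  simp

theorem sup_pS (S : Finset ℕ) : Sup S (pS S) := by
  intro n hn
  have h : n ∈ S ∧ n.Prime := by
    by_contra h
    apply hn
    change (if n ∈ S ∧ n.Prime then (1 : ℝ) else 0) = 0
    rw [if_neg h]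
  rw [h.2.primeFactors]
  simpa using h.1

theorem sup_pow (S : Finset ℕ) (r : ℕ) : Sup S (pS S ^ r) := by
  induction r with
  | zero => simpa using sup_one S
  | succ r ih =>
    rw [pow_succ]
    have := ih.mul (sup_pS S)
    rwa [Finset.union_self] at this

theorem sup_ac (α : ℝ) (S : Finset ℕ) (K : ℕ) : Sup S (ac α S K) := by
  intro n hn
  change (∑ j ∈ Finset.range (K + 1), α ^ j / (j.factorial : ℝ) * (pS S ^ j) n) ≠ 0 at hn
  obtain ⟨j, _, hj⟩ := Finset.exists_ne_zero_of_sum_ne_zero hn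
  exact sup_pow S j n (right_ne_zero_of_mul hj)

theorem sup_toC {S : Finset ℕ} {f : ArithmeticFunction ℝ} (hf : Sup S f) :
    ∀ n, toC f n ≠ 0 → n.primeFactors ⊆ S := by
  intro n hn
  apply hf n
  intro h
  apply hn
  simp [h]

theorem nn_one : NN (toC 1) ≤ ENNReal.ofReal 1 := by
  rw [toC_one]
  unfold NN
  rw [tsum_eq_single 1]
  · simp
  · intro n hn
    rw [ArithmeticFunction.one_apply_ne hn]
    simp

/-- The norm of the product of the truncated exponentials. -/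
theorem nn_prod (h2 : CprStatement) (h1 : AcnStatement) (S : ℕ → Finset ℕ) (K : ℕ → ℕ) (α : ℝ)
    (hS : ∀ i, IsPr (S i)) (hd : ∀ i i', i ≠ i' → Disjoint (S i) (S i')) (j : ℕ) :
    NN (toC (∏ i ∈ Finset.range j, ac α (S i) (K i))) ≤
        ENNReal.ofReal (Real.exp (α ^ 2 * ∑ i ∈ Finset.range j, rs (S i))) ∧
      Sup ((Finset.range j).biUnion S) (∏ i ∈ Finset.range j, ac α (S i) (K i)) := by
  induction j with
  | zero =>
    constructor
    · simpa using nn_one
    · simpa using sup_one _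
  | succ j ih =>
    constructor
    · rw [Finset.prod_range_succ, toC_mul, Finset.sum_range_succ, mul_add, Real.exp_add,
        ENNReal.ofReal_mul (Real.exp_pos _).le]
      refine (h2 ((Finset.range j).biUnion S) (S j) _ _ ?_ (sup_toC ih.2)
        (sup_toC (sup_ac α (S j) (K j)))).trans ?_
      · rw [Finset.disjoint_biUnion_left]
        intro i hi
        exact hd i j (Finset.mem_range.1 hi).ne
      · exact mul_le_mul' ih.1 ((h1 (S j) (hS j)).1 α (K j))
    · rw [Finset.prod_range_succ, Finset.range_add_one, Finset.biUnion_insert, Finset.union_comm]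
      exact ih.2.mul (sup_ac α (S j) (K j))

theorem nn_gA (h1 : AcnStatement) (h2 : CprStatement) (α T : ℝ) (j r : ℕ)
    (hS : ∀ i, IsPr (SS T i)) (hd : ∀ i i', i ≠ i' → Disjoint (SS T i) (SS T i')) :
    NN (toC (gA α T j r)) ≤
      ENNReal.ofReal (Real.exp (α ^ 2 * ∑ i ∈ Finset.range j, rs (SS T i)) *
        ((r.factorial : ℝ) * rs (SS T j) ^ r)) := by
  have h := nn_prod h2 h1 (SS T) (KJ T) α hS hd j
  unfold gA
  rw [toC_mul, ENNReal.ofReal_mul (Real.exp_pos _).le]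
  refine (h2 ((Finset.range j).biUnion (SS T)) (SS T j) _ _ ?_ (sup_toC h.2)
    (sup_toC (sup_pow (SS T j) r))).trans ?_
  · rw [Finset.disjoint_biUnion_left]
    intro i hi
    exact hd i j (Finset.mem_range.1 hi).ne
  · exact mul_le_mul' h.1 ((h1 (SS T j) (hS j)).2 r)

theorem sum_le_of_nn (f : ArithmeticFunction ℝ) (B : ℝ) (hB : 0 ≤ B)
    (h : NN (toC f) ≤ ENNReal.ofReal B) (s : Finset ℕ) :
    ∑ n ∈ s, (f n) ^ 2 / (n : ℝ) ≤ B := by
  have h1 : ENNReal.ofReal (∑ n ∈ s, (f n) ^ 2 / (n : ℝ)) ≤ ENNReal.ofReal B := by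
    refine le_trans ?_ h
    rw [ENNReal.ofReal_sum_of_nonneg (fun n _ => by positivity)]
    unfold NN
    have h2 : ∑ n ∈ s, ENNReal.ofReal ((f n) ^ 2 / (n : ℝ)) =
        ∑ n ∈ s, ENNReal.ofReal (‖toC f n‖ ^ 2 / (n : ℝ)) := by
      apply Finset.sum_congr rfl
      intro n _
      rw [toC_apply, Complex.norm_real, Real.norm_eq_abs, sq_abs]
    rw [h2]
    exact ENNReal.sum_le_tsum s
  exact (ENNReal.ofReal_le_ofReal_iff hB).1 h1

theorem rs_nonneg (S : Finset ℕ) : 0 ≤ rs S := Finset.sum_nonneg (fun _ _ => by positivity)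

theorem nrb (h1 : AcnStatement) (h2 : CprStatement) (h3 : BiuStatement) (h4 : BlsStatement)
    (h5 : SclStatement) (h6 : DecStatement) : NrbStatement := by
  obtain ⟨T1, hT1, h3⟩ := h3
  obtain ⟨C2, T2, hC2, hT2, h4⟩ := h4
  obtain ⟨T3, hT3, h5⟩ := h5
  obtain ⟨C4, T4, hC4, hT4, h6⟩ := h6 C2 hC2
  refine ⟨Real.exp C2 * C4, max (max T1 T2) (max T3 T4), by positivity,
    lt_max_of_lt_left (lt_max_of_lt_left hT1), ?_⟩
  intro T hT k j hk hk1 hj
  have e1 : T1 ≤ T := le_trans (le_trans (le_max_left _ _) (le_max_left _ _)) hT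
  have e2 : T2 ≤ T := le_trans (le_trans (le_max_right _ _) (le_max_left _ _)) hT
  have e3 : T3 ≤ T := le_trans (le_trans (le_max_left _ _) (le_max_right _ _)) hT
  have e4 : T4 ≤ T := le_trans (le_trans (le_max_right _ _) (le_max_right _ _)) hT
  obtain ⟨hS, hd, -, -⟩ := h3 T e1
  obtain ⟨-, hB0, hB1, -, -, hBs⟩ := h4 T e2 j hj
  obtain ⟨hll, -, hdl, hdJ, -, -, -, -⟩ := h5 T e3
  obtain ⟨hD1, hD0⟩ := h6 T e4
  have hll0 : 0 ≤ ll T := le_trans (by norm_num) hll
  -- `1 ≤ 1 / δ_j`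
  have hdj : 0 < dl T j ∧ dl T j ≤ 1 := by
    rcases hj.lt_or_eq with h | h
    · exact ⟨(hdl j h).1, (hdl j h).2.trans (by norm_num)⟩
    · rw [h]
      exact ⟨lt_of_lt_of_le (by norm_num) hdJ.1, hdJ.2.trans (by norm_num)⟩
  have hdinv : 1 ≤ (1 / dl T j) ^ 2 := by
    have : 1 ≤ 1 / dl T j := by
      rw [le_div_iff₀ hdj.1]
      linarith [hdj.2]
    exact one_le_pow₀ this
  have hwj : 0 ≤ wj T j := by
    unfold wj
    split_ifs with h
    · exact hdj.1.le
    · exact zero_le_one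
  -- the last block
  have hlast : ((rj T j).factorial : ℝ) * rs (SS T j) ^ rj T j ≤
      C4 * wj T j * RJ T j ^ (2 * rj T j) := by
    rcases Nat.eq_zero_or_pos j with h | h
    · subst h
      refine le_trans ?_ hD0
      have g1 : rs (SS T 0) ^ rj T 0 ≤ (ll T + C2) ^ rj T 0 :=
        pow_le_pow_left₀ (rs_nonneg _) hB0 _
      have g2 : (1 : ℝ) ≤ 2 ^ rj T 0 := one_le_pow₀ (by norm_num)
      have g3 : (1 : ℝ) ≤ Real.exp (2 * (ll T + C2)) := Real.one_le_exp (by positivity)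
      have g4 : (0 : ℝ) ≤ ((rj T 0).factorial : ℝ) * (ll T + C2) ^ rj T 0 := by positivity
      calc ((rj T 0).factorial : ℝ) * rs (SS T 0) ^ rj T 0
          ≤ ((rj T 0).factorial : ℝ) * (ll T + C2) ^ rj T 0 := by gcongr
        _ = 1 * (1 * (((rj T 0).factorial : ℝ) * (ll T + C2) ^ rj T 0)) * 1 := by ring
        _ ≤ Real.exp (2 * (ll T + C2)) *
            (2 ^ rj T 0 * (((rj T 0).factorial : ℝ) * (ll T + C2) ^ rj T 0)) *
            (1 / dl T 0) ^ 2 := by gcongr
        _ = _ := by ring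
    · refine le_trans ?_ (hD1 j h hj)
      have g1 : rs (SS T j) ^ rj T j ≤ (4 : ℝ) ^ rj T j :=
        pow_le_pow_left₀ (rs_nonneg _) ((hB1 h).trans (by norm_num)) _
      calc ((rj T j).factorial : ℝ) * rs (SS T j) ^ rj T j
          ≤ ((rj T j).factorial : ℝ) * 4 ^ rj T j := by gcongr
        _ = 4 ^ rj T j * ((rj T j).factorial : ℝ) * 1 := by ring
        _ ≤ 4 ^ rj T j * ((rj T j).factorial : ℝ) * (1 / dl T j) ^ 2 := by gcongr
  -- the exponential
  have hlog : 0 < Real.log T := by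
    apply Real.log_pos
    linarith
  have hexp : Real.exp ((-k) ^ 2 * ∑ i ∈ Finset.range j, rs (SS T i)) ≤
      Real.exp C2 * Real.log T ^ (k ^ 2) := by
    rw [Real.rpow_def_of_pos hlog, ← Real.exp_add]
    apply Real.exp_le_exp.2
    have hk2 : 0 ≤ k ^ 2 := sq_nonneg k
    have hk3 : k ^ 2 ≤ 1 := pow_le_one₀ hk.le hk1
    have : (-k) ^ 2 * ∑ i ∈ Finset.range j, rs (SS T i) ≤ k ^ 2 * (ll T + C2) := by
      rw [neg_sq]
      exact mul_le_mul_of_nonneg_left hBs hk2
    have h' : k ^ 2 * C2 ≤ 1 * C2 := mul_le_mul_of_nonneg_right hk3 hC2.le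
    have h'' : ll T = Real.log (Real.log T) := rfl
    rw [h''] at this
    linarith [mul_add (k ^ 2) (Real.log (Real.log T)) C2, mul_comm (k ^ 2) (Real.log (Real.log T))]
  have hfac : (0 : ℝ) ≤ ((rj T j).factorial : ℝ) * rs (SS T j) ^ rj T j :=
    mul_nonneg (by positivity) (pow_nonneg (rs_nonneg _) _)
  refine le_trans (sum_le_of_nn _ _ (mul_nonneg (Real.exp_pos _).le hfac)
    (nn_gA h1 h2 (-k) T j (rj T j) hS hd) _) ?_
  calc Real.exp ((-k) ^ 2 * ∑ i ∈ Finset.range j, rs (SS T i)) *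
        (((rj T j).factorial : ℝ) * rs (SS T j) ^ rj T j)
      ≤ (Real.exp C2 * Real.log T ^ (k ^ 2)) * (C4 * wj T j * RJ T j ^ (2 * rj T j)) :=
        mul_le_mul hexp hlast hfac (by positivity)
    _ = Real.exp C2 * C4 * Real.log T ^ (k ^ 2) * wj T j * RJ T j ^ (2 * rj T j) := by ring

end Pool.Agent.Lib.MP_6bc78b_nt.MS.QZ.H31
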