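import Pool.Agent.Lib.MP_6bc78b_nt.MS.QZ.Iface2

/-! Project MS, Part QZ, module PSV: the variance of the prime sum over the zeros. -/

set_option autoImplicit false

open Complex Filter Topology MeasureTheory ArithmeticFunction

namespace Pool.Agent.Lib.MP_6bc78b_nt.MS.QZ.H31

open Pool.Agent.Lib.MP_6bc78b_nt.MS Pool.Agent.Lib.MP_6bc78b_nt.MS.P1
open Pool.Agent.Lib.MP_6bc78b_nt.MS.QZ

theorem mem_SS_Icc {T : ℝ} {i p : ℕ} (h : p ∈ SS T i) : p ∈ Finset.Icc 1 ⌊yy T i⌋₊ := by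
  cases i with
  | zero => exact (Finset.mem_filter.1 h).1
  | succ i => exact (Finset.mem_filter.1 h).1

theorem pS_apply (S : Finset ℕ) (n : ℕ) : pS S n = if n ∈ S ∧ n.Prime then 1 else 0 := rfl

/-- A sum against `pS S`. -/
theorem sum_pS {M : Type*} [AddCommMonoid M] (S : Finset ℕ) (hS : IsPr S) (N : ℕ)
    (hN : S ⊆ Finset.Icc 1 N) (F : ℝ → ℕ → M) (h0 : ∀ n, F 0 n = 0) :
    ∑ n ∈ Finset.Icc 1 N, F (pS S n) n = ∑ n ∈ S, F 1 n := by
  rw [← Finset.sum_subset hN (f := fun n => F (pS S n) n)]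
  · apply Finset.sum_congr rfl
    intro n hn
    have : pS S n = 1 := by
      rw [pS_apply, if_pos ⟨hn, hS n hn⟩]
    rw [this]
  · intro n _ hn
    have : pS S n = 0 := by
      rw [pS_apply, if_neg (fun h => hn h.1)]
    rw [this, h0]

theorem dpoly_pS (S : Finset ℕ) (hS : IsPr S) (x : ℝ) (hN : S ⊆ Finset.Icc 1 ⌊x⌋₊) (s : ℂ) :
    dpoly (pS S) x s = PS S s := by
  unfold dpoly PS
  rw [sum_pS S hS _ hN (fun a n => (a : ℂ) * (n : ℂ) ^ (-s)) (by simp)]
  simp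

theorem psv (h1 : DmvStatement) (h2 : BiuStatement) (h3 : BlsStatement) (h4 : SclStatement) :
    PsvStatement := by
  obtain ⟨C1, T1, hC1, hT1, h1⟩ := h1 (1 / 2) (by norm_num) (by norm_num)
  obtain ⟨T2, hT2, h2⟩ := h2
  obtain ⟨C3, T3, hC3, hT3, h3⟩ := h3
  obtain ⟨T4, hT4, h4⟩ := h4
  refine ⟨C1 * (2 + C3), max (max T1 T2) (max T3 (max T4 4)), by positivity,
    lt_max_of_lt_left (lt_max_of_lt_left hT1), ?_⟩
  intro T hT j hj
  have e1 : T1 ≤ T := le_trans (le_trans (le_max_left _ _) (le_max_left _ _)) hT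
  have e2 : T2 ≤ T := le_trans (le_trans (le_max_right _ _) (le_max_left _ _)) hT
  have e3 : T3 ≤ T := le_trans (le_trans (le_max_left _ _) (le_max_right _ _)) hT
  have e4 : T4 ≤ T := le_trans (le_trans (le_trans (le_max_left _ _) (le_max_right _ _))
    (le_max_right _ _)) hT
  have e5 : 4 ≤ T := le_trans (le_trans (le_trans (le_max_right _ _) (le_max_right _ _))
    (le_max_right _ _)) hT
  have hTpos : 0 < T := by linarith
  obtain ⟨hS, hd, -, -⟩ := h2 T e2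
  obtain ⟨-, -, -, -, -, hBs⟩ := h3 T e3 j hj
  obtain ⟨hll, -, hdl, -⟩ := h4 T e4
  set S : Finset ℕ := (Finset.range j).biUnion (SS T) with hSdef
  have hSp : IsPr S := by
    intro p hp
    obtain ⟨i, _, hp⟩ := Finset.mem_biUnion.1 hp
    exact hS i p hp
  have hsub : S ⊆ Finset.Icc 1 ⌊T ^ (1 - 1 / 2 : ℝ)⌋₊ := by
    intro p hp
    obtain ⟨i, hi, hp⟩ := Finset.mem_biUnion.1 hp
    have hi' : i < JJ T := lt_of_lt_of_le (Finset.mem_range.1 hi) hj
    have h := Finset.mem_Icc.1 (mem_SS_Icc hp)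
    refine Finset.mem_Icc.2 ⟨h.1, h.2.trans (Nat.floor_mono ?_)⟩
    exact Real.rpow_le_rpow_of_exponent_le (by linarith)
      ((hdl i hi').2.trans (by norm_num))
  have hPS : ∀ s : ℂ, ∑ i ∈ Finset.range j, PS (SS T i) s =
      dpoly (pS S) (T ^ (1 - 1 / 2 : ℝ)) s := by
    intro s
    rw [dpoly_pS S hSp _ hsub s]
    unfold PS
    rw [hSdef, Finset.sum_biUnion]
    intro a _ b _ hab
    exact hd a b hab
  have hT3 : (1 : ℝ) ≤ T ^ (3 : ℝ) := Real.one_le_rpow (by linarith) (by norm_num)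
  have hD := h1 T e1 (pS S) (by
    intro n
    rw [pS_apply]
    split_ifs
    · simpa using hT3
    · simpa using le_trans zero_le_one hT3)
  have hrs : ∑ n ∈ Finset.Icc 1 ⌊T ^ (1 - 1 / 2 : ℝ)⌋₊, (pS S) n ^ 2 / (n : ℝ) =
      ∑ i ∈ Finset.range j, rs (SS T i) := by
    rw [sum_pS S hSp _ hsub (fun a n => a ^ 2 / (n : ℝ)) (by simp)]
    rw [hSdef, Finset.sum_biUnion]
    · apply Finset.sum_congr rfl
      intro i _
      unfold rs
      apply Finset.sum_congr rfl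
      intro p _
      simp
    · intro a _ b _ hab
      exact hd a b hab
  rw [hrs] at hD
  have heq : ∑ᶠ γ ∈ zset T, (mz γ : ℝ) * wt T γ *
      ‖∑ i ∈ Finset.range j, PS (SS T i) (1 / 2 + γ * I)‖ ^ 2 =
      ∑ᶠ γ ∈ zset T, (mz γ : ℝ) * wt T γ *
        ‖dpoly (pS S) (T ^ (1 - 1 / 2 : ℝ)) (1 / 2 + γ * I)‖ ^ 2 := by
    simp_rw [hPS]
  rw [heq]
  refine hD.trans ?_
  -- `c G T * log T ≥ 1`
  have hlog : 1 ≤ Real.log T := by
    rw [Real.le_log_iff_exp_le hTpos]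
    linarith [Real.exp_one_lt_d9]
  have hcG : 1 ≤ cG T * Real.log T := by
    unfold cG DD
    have hpi : Real.sqrt Real.pi ≤ 2 := by
      rw [Real.sqrt_le_left (by norm_num)]
      linarith [Real.pi_lt_d2]
    have hpi0 : 0 < Real.sqrt Real.pi := Real.sqrt_pos.2 Real.pi_pos
    have h23 : Real.log T ^ (2 / 3 : ℝ) ≤ Real.log T := by
      calc Real.log T ^ (2 / 3 : ℝ) ≤ Real.log T ^ (1 : ℝ) :=
            Real.rpow_le_rpow_of_exponent_le hlog (by norm_num)
        _ = Real.log T := Real.rpow_one _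
    have h23' : 0 < Real.log T ^ (2 / 3 : ℝ) := Real.rpow_pos_of_pos (by linarith) _
    rw [div_div, div_mul_eq_mul_div, le_div_iff₀ (by positivity), one_mul]
    calc Real.log T ^ (2 / 3 : ℝ) * (2 * Real.sqrt Real.pi) ≤ Real.log T * (2 * 2) := by
          gcongr
      _ ≤ T * Real.log T := by nlinarith
  have hll1 : 1 ≤ ll T := le_trans (by norm_num) hll
  have hX : 0 ≤ cG T * Real.log T := le_trans zero_le_one hcG
  have g1 : cG T * Real.log T * ∑ i ∈ Finset.range j, rs (SS T i) ≤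
      cG T * Real.log T * ((1 + C3) * ll T) := by
    apply mul_le_mul_of_nonneg_left _ hX
    have : C3 * 1 ≤ C3 * ll T := mul_le_mul_of_nonneg_left hll1 hC3.le
    linarith
  have g2 : (1 : ℝ) ≤ cG T * Real.log T * ll T := by
    calc (1 : ℝ) = 1 * 1 := by norm_num
      _ ≤ cG T * Real.log T * ll T := mul_le_mul hcG hll1 zero_le_one hX
  calc C1 * (cG T * Real.log T * ∑ i ∈ Finset.range j, rs (SS T i) + 1)
      ≤ C1 * (cG T * Real.log T * ((1 + C3) * ll T) + cG T * Real.log T * ll T) :=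
        mul_le_mul_of_nonneg_left (add_le_add g1 g2) hC1.le
    _ = C1 * (2 + C3) * (cG T * Real.log T) * ll T := by ring

end Pool.Agent.Lib.MP_6bc78b_nt.MS.QZ.H31
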